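import Pool.Agent.Y314.CT.Stm

/-!
Project CT: countability argument.
-/

set_option autoImplicit false

namespace Pool.Agent.Y448.CT

open Pool.Agent.Y314.CT

/-! ### the word norm -/

theorem wn_le {H : Type} [Group H] {n : ℕ} {gens : Fin n → H} (w : FreeGroup (Fin n)) :
    wn gens (FreeGroup.lift gens w) ≤ w.norm :=
  Nat.sInf_le ⟨w, rfl, le_rfl⟩

theorem wn_mem {H : Type} [Group H] {n : ℕ} {gens : Fin n → H}
    (hs : Function.Surjective (FreeGroup.lift gens)) (h : H) :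
    ∃ w : FreeGroup (Fin n), FreeGroup.lift gens w = h ∧ w.norm ≤ wn gens h := by
  obtain ⟨w, hw⟩ := hs h
  exact Nat.sInf_mem (s := {k : ℕ | ∃ w : FreeGroup (Fin n), FreeGroup.lift gens w = h ∧
    w.norm ≤ k}) ⟨w.norm, w, hw, le_rfl⟩

theorem wn_mul {H : Type} [Group H] {n : ℕ} {gens : Fin n → H}
    (hs : Function.Surjective (FreeGroup.lift gens)) (g h : H) :
    wn gens (g * h) ≤ wn gens g + wn gens h := by
  obtain ⟨w, h1, h2⟩ := wn_mem hs g
  obtain ⟨w', h1', h2'⟩ := wn_mem hs h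
  have h3 := wn_le (gens := gens) (w * w')
  rw [map_mul, h1, h1'] at h3
  have h4 := FreeGroup.norm_mul_le w w'
  omega

theorem wn_inv {H : Type} [Group H] {n : ℕ} {gens : Fin n → H}
    (hs : Function.Surjective (FreeGroup.lift gens)) (g : H) :
    wn gens g⁻¹ ≤ wn gens g := by
  obtain ⟨w, h1, h2⟩ := wn_mem hs g
  have h3 := wn_le (gens := gens) w⁻¹
  rw [map_inv, h1, FreeGroup.norm_inv_eq] at h3
  omega

/-- the word norms of two groups with the same relations -/
theorem wn_eq {H H' : Type} [Group H] [Group H'] {n : ℕ} {gens : Fin n → H} {gens' : Fin n → H'}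
    (hk : ∀ w, FreeGroup.lift gens w = 1 ↔ FreeGroup.lift gens' w = 1) (w : FreeGroup (Fin n)) :
    wn gens (FreeGroup.lift gens w) = wn gens' (FreeGroup.lift gens' w) := by
  have key : ∀ w' : FreeGroup (Fin n), FreeGroup.lift gens w' = FreeGroup.lift gens w ↔
      FreeGroup.lift gens' w' = FreeGroup.lift gens' w := by
    intro w'
    have h := hk (w'⁻¹ * w)
    rw [map_mul, map_mul, map_inv, map_inv, inv_mul_eq_one, inv_mul_eq_one] at h
    exact h
  unfold wn
  simp only [key]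

/-- two groups with the same relations -/
theorem same_of {t s : ℝ} {H H' : Type} [Group H] [Group H'] {n : ℕ} {gens : Fin n → H}
    {gens' : Fin n → H'} {A : NT t → H} {B : H → NT t} {A' : NT s → H'} {B' : H' → NT s}
    {K K' : ℝ} (h : QD t H n gens A B K) (h' : QD s H' n gens' A' B' K')
    (hk : ∀ w, FreeGroup.lift gens w = 1 ↔ FreeGroup.lift gens' w = 1) :
    ∃ (φ : NT t → NT s) (K : ℝ), 0 < K ∧
      ∀ a b, dd a b ≤ K * dd (φ a) (φ b) + K ∧ dd (φ a) (φ b) ≤ K * dd a b + K := by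
  choose W hW using fun a => h.surj (A a)
  have hK := h.pos
  have hK' := h'.pos
  have e1 : ∀ a b, wn gens ((A a)⁻¹ * A b) =
      wn gens' ((FreeGroup.lift gens' (W a))⁻¹ * FreeGroup.lift gens' (W b)) := by
    intro a b
    have := wn_eq hk ((W a)⁻¹ * W b)
    rw [map_mul, map_inv, map_mul, map_inv, hW, hW] at this
    exact this
  refine ⟨fun a => B' (FreeGroup.lift gens' (W a)), 4 * K * K' + K + K', by positivity, ?_⟩
  intro a b
  obtain ⟨g, hg⟩ : ∃ g, g = FreeGroup.lift gens' (W a) := ⟨_, rfl⟩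
  obtain ⟨k, hk2⟩ : ∃ k, k = FreeGroup.lift gens' (W b) := ⟨_, rfl⟩
  have e2 := e1 a b
  simp only
  rw [← hg, ← hk2] at e2 ⊢
  have d1 := dd_nonneg a b
  have d2 := dd_nonneg (B' g) (B' k)
  constructor
  · have l1 := h.a_lo a b
    rw [e2] at l1
    have l2 : wn gens' (g⁻¹ * k) ≤ wn gens' (g⁻¹ * A' (B' g)) +
        wn gens' ((A' (B' g))⁻¹ * A' (B' k)) + wn gens' (k⁻¹ * A' (B' k)) := by
      have i1 : g⁻¹ * k = (g⁻¹ * A' (B' g)) * ((A' (B' g))⁻¹ * A' (B' k)) *
          (k⁻¹ * A' (B' k))⁻¹ := by group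
      have i2 := wn_mul h'.surj ((g⁻¹ * A' (B' g)) * ((A' (B' g))⁻¹ * A' (B' k)))
        ((k⁻¹ * A' (B' k))⁻¹)
      have i3 := wn_mul h'.surj (g⁻¹ * A' (B' g)) ((A' (B' g))⁻¹ * A' (B' k))
      have i4 := wn_inv h'.surj (k⁻¹ * A' (B' k))
      rw [← i1] at i2
      omega
    have l3 : (wn gens' (g⁻¹ * k) : ℝ) ≤ (wn gens' (g⁻¹ * A' (B' g)) : ℝ) +
        (wn gens' ((A' (B' g))⁻¹ * A' (B' k)) : ℝ) + (wn gens' (k⁻¹ * A' (B' k)) : ℝ) := by
      exact_mod_cast l2
    have l4 := h'.ab g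
    have l5 := h'.ab k
    have l6 := h'.a_up (B' g) (B' k)
    have l7 : (wn gens' (g⁻¹ * k) : ℝ) ≤ K' * dd (B' g) (B' k) + 3 * K' := by linarith
    have l8 := mul_le_mul_of_nonneg_left l7 hK.le
    have l9 : 0 ≤ K * K' * dd (B' g) (B' k) := by positivity
    have l10 : 0 ≤ K * dd (B' g) (B' k) := by positivity
    have l11 : 0 ≤ K' * dd (B' g) (B' k) := by positivity
    nlinarith
  · have u1 := h'.b_up g k
    have u2 := h.a_up a b
    rw [e2] at u2
    have u3 := mul_le_mul_of_nonneg_left u2 hK'.le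
    have l9 : 0 ≤ K * K' * dd a b := by positivity
    have l10 : 0 ≤ K * dd a b := by positivity
    have l11 : 0 ≤ K' * dd a b := by positivity
    have l12 : 0 ≤ K * K' := by positivity
    nlinarith

instance (n : ℕ) : Countable (FreeGroup (Fin n)) := by
  have h : Function.Surjective (fun l : List (Fin n × Bool) => FreeGroup.mk l) := by
    intro w
    exact ⟨w.toWord, FreeGroup.mk_toWord⟩
  exact h.countable

theorem t_SAME (hFP : S_FP) : S_SAME := by
  intro hall
  have h1 : ∀ t : Set.Ioi (2 : ℝ), ∃ c : (n : ℕ) × Finset (FreeGroup (Fin n)),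
      ∃ (H : Type) (_ : Group H) (gens : Fin c.1 → H) (A : NT (t : ℝ) → H)
        (B : H → NT (t : ℝ)) (K : ℝ), QD (t : ℝ) H c.1 gens A B K ∧
        ∀ w : FreeGroup (Fin c.1), FreeGroup.lift gens w = 1 ↔
          w ∈ Subgroup.normalClosure (c.2 : Set (FreeGroup (Fin c.1))) := by
    rintro ⟨t, ht⟩
    obtain ⟨H, hH, n, gens, A, B, K, hQ⟩ := hall t ht
    obtain ⟨rels, hr⟩ := hFP t H n gens A B K hQ
    exact ⟨⟨n, rels⟩, H, hH, gens, A, B, K, hQ, hr⟩
  choose F hF using h1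
  have hni : ¬ Function.Injective F := by
    intro hinj
    have hc : Countable (Set.Ioi (2 : ℝ)) := hinj.countable
    have h2 : (Set.Ioi (2 : ℝ)).Countable := Set.countable_coe_iff.1 hc
    have h3 := Cardinal.mk_Ioi_real 2
    have h4 : Cardinal.mk (Set.Ioi (2 : ℝ)) ≤ Cardinal.aleph0 := Cardinal.le_aleph0_iff_set_countable.2 h2
    rw [h3] at h4
    exact absurd h4 (not_le.2 Cardinal.aleph0_lt_continuum)
  rw [Function.Injective] at hni
  push Not at hni
  obtain ⟨t, s, hts, hne⟩ := hni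
  obtain ⟨H, hH, gens, A, B, K, hQ, hr⟩ := hF t
  have hs := hF s
  rw [← hts] at hs
  obtain ⟨H', hH', gens', A', B', K', hQ', hr'⟩ := hs
  refine ⟨t, s, t.2, s.2, fun h => hne (Subtype.ext h), ?_⟩
  exact same_of hQ hQ' (fun w => (hr w).trans (hr' w).symm)

end Pool.Agent.Y448.CT
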